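import Pool.Agent.BE01.Stmts

/-!
# Squad BE01, module LIB: derivative under the integral
-/

namespace Pool.Agent.BE01.H71

open Set Filter Topology MeasureTheory
open scoped InnerProductSpace

theorem lib (hLIA : LiaStmt) : LibStmt := by
  intro H _ _ _ T f f' t0 m N ht0 hm hT hTc hf'c hf hb hb' t ht
  have hfc : ContinuousOn f (Ioi t0) := fun s hs => (hf s hs).continuousAt.continuousWithinAt
  obtain ⟨hA, -, -⟩ := hLIA H T f t0 m N ht0 hm hT hTc hfc hb
  obtain ⟨hA', -, -⟩ := hLIA H T f' t0 m N ht0 hm hT hTc hf'c hb'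
  set t' : ℝ := (t0 + t) / 2 with ht'
  have ht't : t' < t := by rw [ht']; linarith [show t0 < t from ht]
  have ht't0 : t0 < t' := by rw [ht']; linarith [show t0 < t from ht]
  have ht'0 : 0 < t' := ht0.trans ht't0
  have hN : 0 ≤ N := by
    have h1 := hb (t0 + 1) (by linarith)
    have h2 : 0 ≤ N * (t0 + 1) ^ (-m) := (norm_nonneg _).trans h1
    exact nonneg_of_mul_nonneg_left h2 (Real.rpow_pos_of_pos (by linarith) _)
  have hs : Ioi t' ∈ 𝓝 t := Ioi_mem_nhds ht't
  have hbound : Integrable (fun τ : ℝ => N * (t' + τ) ^ (-m)) (volume.restrict (Ioi 0)) := by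
    refine Integrable.const_mul ?_ N
    have h1 : IntegrableOn (fun x : ℝ => x ^ (-m)) (Ioi t') :=
      integrableOn_Ioi_rpow_of_lt (by linarith) ht'0
    have h2 : IntegrableOn (fun τ : ℝ => (t' + τ) ^ (-m)) (Ioi 0) := by
      have h3 := (measurePreserving_add_left (volume : Measure ℝ) t').integrableOn_comp_preimage
        (measurableEmbedding_addLeft t') (f := fun x : ℝ => x ^ (-m)) (s := Ioi t')
      have h4 : (fun x => t' + x) ⁻¹' Ioi t' = Ioi (0 : ℝ) := by
        ext x; simp
      rw [h4] at h3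
      exact h3.2 h1
    exact h2
  refine (hasDerivAt_integral_of_dominated_loc_of_deriv_le (F := fun t τ => T τ (f (t + τ)))
    (F' := fun t τ => T τ (f' (t + τ))) (bound := fun τ : ℝ => N * (t' + τ) ^ (-m)) hs ?_ ?_ ?_ ?_
    hbound ?_).2
  · filter_upwards [hs] with s hs'
    exact (hA s (ht't0.trans hs')).aestronglyMeasurable
  · exact hA t ht
  · exact (hA' t ht).aestronglyMeasurable
  · refine (ae_restrict_iff' measurableSet_Ioi).2 (Eventually.of_forall fun τ hτ x hx => ?_)
    have hτ0 : (0 : ℝ) < τ := hτ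
    have hx' : t' < x := hx
    have h1 : t0 < x + τ := by linarith
    refine (hT _ _).trans ((hb' _ h1).trans ?_)
    refine mul_le_mul_of_nonneg_left ?_ hN
    exact Real.rpow_le_rpow_of_nonpos (by linarith) (by linarith) (by linarith)
  · refine (ae_restrict_iff' measurableSet_Ioi).2 (Eventually.of_forall fun τ hτ x hx => ?_)
    have hτ0 : (0 : ℝ) < τ := hτ
    have hx' : t' < x := hx
    have h1 : t0 < x + τ := by linarith
    have h2 : HasDerivAt (fun s => f (s + τ)) (f' (x + τ)) x := by
      have h3 := (hf (x + τ) h1).scomp x ((hasDerivAt_id x).add_const τ)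
      rw [one_smul] at h3
      exact h3
    exact (T τ).hasFDerivAt.comp_hasDerivAt x h2

end Pool.Agent.BE01.H71
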